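import Mathlib

/-!
# MP_74a3a5_co: the toroidal grid graph `TGr_{3,5}` is 3-word-representable

So the representation number of a toroidal grid graph with `m + n ≥ 8` can be at most 3.
-/

set_option autoImplicit false

namespace Pool.Agent.Results.MP_74a3a5_co.Torus35

/-- The letters `x`, `y` alternate in the word `w`: once all letters other than `x` and `y` are
deleted, no two consecutive letters are equal. -/
def Alternate {V : Type*} [DecidableEq V] (w : List V) (x y : V) : Prop :=
  (w.filter fun z => z = x ∨ z = y).IsChain (· ≠ ·)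

/-- The graph `G` is `k`-word-representable. -/
def IsWordRepresentable {V : Type*} [DecidableEq V] (k : ℕ) (G : SimpleGraph V) : Prop :=
  ∃ w : List V, (∀ v, w.count v = k) ∧ ∀ x y, x ≠ y → (Alternate w x y ↔ G.Adj x y)

/-- `y` follows `x` in the same copy of one of the two cycles. -/
def Next (m n : ℕ) (x y : Fin m × Fin n) : Prop :=
  (x.2 = y.2 ∧ ((x.1 : ℕ) + 1) % m = y.1) ∨ (x.1 = y.1 ∧ ((x.2 : ℕ) + 1) % n = y.2)

/-- The toroidal grid graph: `x` and `y` are adjacent if they are distinct and one of them follows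
the other one. -/
def TGr (m n : ℕ) : SimpleGraph (Fin m × Fin n) := SimpleGraph.fromRel (Next m n)

/-- The vertex number `v = i + 3 j` is `(i, j)`. -/
def vertex (v : ℕ) : Fin 3 × Fin 5 := (Fin.ofNat 3 v, Fin.ofNat 5 (v / 3))

/-- The word. -/
def word : List (Fin 3 × Fin 5) :=
  [0, 3, 14, 11, 2, 13, 8, 10, 12, 14, 1, 13, 5, 7, 9, 0, 2, 4, 1, 12, 6, 3, 0, 11, 14, 10, 13, 9,
    12, 8, 11, 7, 10, 6, 9, 5, 8, 4, 7, 3, 6, 2, 5, 1, 4].map vertex

instance {V : Type*} [DecidableEq V] (w : List V) (x y : V) : Decidable (Alternate w x y) :=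
  inferInstanceAs (Decidable ((w.filter fun z => z = x ∨ z = y).IsChain (· ≠ ·)))

instance (m n : ℕ) (x y : Fin m × Fin n) : Decidable (Next m n x y) :=
  inferInstanceAs (Decidable (_ ∨ _))

instance (m n : ℕ) (x y : Fin m × Fin n) : Decidable ((TGr m n).Adj x y) :=
  inferInstanceAs (Decidable (x ≠ y ∧ (Next m n x y ∨ Next m n y x)))

set_option maxRecDepth 100000 in
theorem count_word : ∀ v, @List.count _ instBEqOfDecidableEq v word = 3 := by decide +kernel

set_option maxRecDepth 100000 in
theorem alternate_word : ∀ x y, x ≠ y → (Alternate word x y ↔ (TGr 3 5).Adj x y) := by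
  decide +kernel

/-- **Theorem.** There are `m, n ≥ 3` with `m + n ≥ 8` for which the toroidal grid graph is
`k`-word-representable for some `1 ≤ k ≤ 3`, namely `m = 3`, `n = 5`, `k = 3`. -/
theorem result : ∃ m n : ℕ, 3 ≤ m ∧ 3 ≤ n ∧ 8 ≤ m + n ∧
    ∃ k : ℕ, 1 ≤ k ∧ k ≤ 3 ∧ IsWordRepresentable k (TGr m n) :=
  ⟨3, 5, le_rfl, by norm_num, le_rfl, 3, by norm_num, le_rfl, word, count_word, alternate_word⟩

end Pool.Agent.Results.MP_74a3a5_co.Torus35
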